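import Mathlib
import Pool.Agent.Lib.MP_337ab5_co.Defs
import Pool.Agent.Lib.MP_337ab5_co.Q1

set_option autoImplicit false

open Pool.Agent.Lib.MP_337ab5_co

/-- Convention I: entry number `t` (from `0`) lies in position `t % N + 1` of its word, so A moves
when `t % N` is even and B when it is odd. A wins iff `N ≤ 2`, B wins iff `N ≥ 3`. -/
theorem Pool.Agent.Results.MP_337ab5_co.ConventionI.result (N : ℕ) (hN : 1 ≤ N) :
    (Wins N (fun t => t % N % 2 = 0) (fun σ τ => Subgroup.closure {σ, τ} = ⊤) ↔ N ≤ 2) ∧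
    (Wins N (fun t => t % N % 2 = 1) (fun σ τ => Subgroup.closure {σ, τ} ≠ ⊤) ↔ 3 ≤ N) :=
  main_I hN
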