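import Mathlib
import Pool.Agent.Lib.MP_337ab5_co.Defs
import Pool.Agent.Lib.MP_337ab5_co.Q2

set_option autoImplicit false

open Pool.Agent.Lib.MP_337ab5_co

/-- Convention II: the `2 N` entries are chosen alternately, so A chooses entry number `t`
(from `0`) when `t` is even and B when `t` is odd. For `N` not congruent to `3` modulo `4`, and for
`N = 3`, A wins iff `N ≤ 3` and B wins iff `N ≥ 4`. -/
theorem Pool.Agent.Results.MP_337ab5_co.ConventionII.result (N : ℕ) (hN : 1 ≤ N)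
    (h4 : N % 4 ≠ 3 ∨ N = 3) :
    (Wins N (fun t => t % 2 = 0) (fun σ τ => Subgroup.closure {σ, τ} = ⊤) ↔ N ≤ 3) ∧
    (Wins N (fun t => t % 2 = 1) (fun σ τ => Subgroup.closure {σ, τ} ≠ ⊤) ↔ 4 ≤ N) :=
  main_II hN h4
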